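import Pool.Agent.H79.QN.Stmts

/-!
# Row AC7 of board `qn`: the number of windows with a given direction
-/

set_option autoImplicit false

namespace Pool.Agent.H79.QN

theorem ac7 (h6 : S_AC6) : S_AC7 := by
  intro z₀ r K l B d T hA hd hB hBK hT
  have hr : 0 < r := by linarith [hA.r1]
  have hq : 0 < r ^ (1 / 3 : ℝ) := Real.rpow_pos_of_pos hr _
  have hdR : (1 : ℝ) ≤ (nsq d : ℝ) := by exact_mod_cast hd
  have hsd : 0 < Real.sqrt (nsq d) := Real.sqrt_pos.mpr (by linarith)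
  rcases T.eq_empty_or_nonempty with rfl | hne
  · simp only [Finset.card_empty, Nat.cast_zero]
    positivity
  · obtain ⟨zm, hm1, hm2, hm3⟩ := hT _ (T.min'_mem hne)
    obtain ⟨zM, hM1, hM2, hM3⟩ := hT _ (T.max'_mem hne)
    have h := h6 z₀ r K l B d zM zm hA hd hB hBK hM1 hm1 hM3 hm3
    have hc : (crs z₀ (zM - zm) : ℝ) = (crs z₀ zM : ℝ) - crs z₀ zm := by
      simp only [crs, Prod.fst_sub, Prod.snd_sub]
      push_cast
      ring
    have hle : (crs z₀ zM : ℝ) - crs z₀ zm ≤ 4 * r * B / Real.sqrt (nsq d) := by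
      rw [hc] at h
      rw [le_div_iff₀ hsd]
      have hs2 : Real.sqrt (nsq d) ^ 2 = (nsq d : ℝ) := Real.sq_sqrt (by linarith)
      apply abs_le_of_sq_le_sq' _ (by positivity) |>.2
      rw [mul_pow, hs2]
      nlinarith [h]
    have hD : 0 < r * (r ^ (1 / 3 : ℝ) / 2) := by positivity
    have hMlt : ((T.max' hne : ℤ) : ℝ) ≤ (crs z₀ zM : ℝ) / (r * (r ^ (1 / 3 : ℝ) / 2)) := by
      rw [← hM2]
      exact Int.floor_le _
    have hmlt : (crs z₀ zm : ℝ) / (r * (r ^ (1 / 3 : ℝ) / 2)) < ((T.min' hne : ℤ) : ℝ) + 1 := by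
      rw [← hm2]
      exact Int.lt_floor_add_one _
    have hdiff : ((T.max' hne : ℤ) : ℝ) - ((T.min' hne : ℤ) : ℝ) ≤
        1 + 8 * B / (Real.sqrt (nsq d) * r ^ (1 / 3 : ℝ)) := by
      have h1 : ((crs z₀ zM : ℝ) - crs z₀ zm) / (r * (r ^ (1 / 3 : ℝ) / 2)) ≤
          8 * B / (Real.sqrt (nsq d) * r ^ (1 / 3 : ℝ)) := by
        calc ((crs z₀ zM : ℝ) - crs z₀ zm) / (r * (r ^ (1 / 3 : ℝ) / 2))
            ≤ (4 * r * B / Real.sqrt (nsq d)) / (r * (r ^ (1 / 3 : ℝ) / 2)) :=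
              div_le_div_of_nonneg_right hle hD.le
          _ = 8 * B / (Real.sqrt (nsq d) * r ^ (1 / 3 : ℝ)) := by
              field_simp
              ring
      rw [sub_div] at h1
      linarith
    have hsub : T ⊆ Finset.Icc (T.min' hne) (T.max' hne) := by
      intro k hk
      exact Finset.mem_Icc.mpr ⟨T.min'_le k hk, T.le_max' k hk⟩
    have hcard := Finset.card_le_card hsub
    rw [Int.card_Icc] at hcard
    have hmM : T.min' hne ≤ T.max' hne := T.min'_le _ (T.max'_mem hne)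
    have hcardR : (T.card : ℝ) ≤ ((T.max' hne : ℤ) : ℝ) + 1 - ((T.min' hne : ℤ) : ℝ) := by
      have h2 : ((T.card : ℕ) : ℤ) ≤ T.max' hne + 1 - T.min' hne := by
        have h3 : ((T.max' hne + 1 - T.min' hne).toNat : ℤ) = T.max' hne + 1 - T.min' hne :=
          Int.toNat_of_nonneg (by omega)
        have h4 : ((T.card : ℕ) : ℤ) ≤ ((T.max' hne + 1 - T.min' hne).toNat : ℤ) := by
          exact_mod_cast hcard
        omega
      exact_mod_cast h2
    linarith

end Pool.Agent.H79.QN
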