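import Pool.Agent.H79.QN.Stmts

/-!
# Row CTA of board `qn`: choice of constants
-/

set_option autoImplicit false

namespace Pool.Agent.H79.QN

theorem nsq_cast_H86 (w : ℤ × ℤ) : (nsq w : ℝ) = (w.1 : ℝ) ^ 2 + (w.2 : ℝ) ^ 2 := by
  simp only [nsq]
  push_cast
  ring

theorem le_of_sq_le_sq_H86 {a b : ℝ} (hb : 0 ≤ b) (h : a ^ 2 ≤ b ^ 2) : a ≤ b :=
  (abs_le_of_sq_le_sq' h hb).2

theorem cl_size_H86 {P ρ : ℝ} {w : ℤ × ℤ} (hρ : 1 ≤ ρ) (h : Cl P ρ w) :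
    |(w.1 : ℝ)| ≤ 2 * ρ ∧ |(w.2 : ℝ)| ≤ 2 * ρ := by
  have h2 := h.r2
  rw [nsq_cast_H86] at h2
  constructor
  · apply abs_le_of_sq_le_sq _ (by linarith)
    nlinarith [sq_nonneg (w.2 : ℝ)]
  · apply abs_le_of_sq_le_sq _ (by linarith)
    nlinarith [sq_nonneg (w.1 : ℝ)]

/-- the distance of two pairs -/
theorem mem_size_H86 {P ρ κ C₁ : ℝ} {w w' : ℤ × ℤ} (hP : 2 ≤ P) (hρ : 1 ≤ ρ) (hκ : 1 ≤ κ)
    (hC₁ : 1 ≤ C₁) (hPρ : P ≤ 3 * ρ) (h : Cl P ρ w) (h' : Cl P ρ w') (hs : SS w w')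
    (h1 : |(w.1 : ℝ) - w'.1| ≤ κ) (h2 : |(nsq w : ℝ) - nsq w'| ≤ 2 * C₁ * κ) :
    (nsq (w' - w) : ℝ) ≤ ((2 * C₁ + 7) * κ * ρ / P) ^ 2 := by
  obtain ⟨hw1, hw2⟩ := cl_size_H86 hρ h
  obtain ⟨hv1, hv2⟩ := cl_size_H86 hρ h'
  have hP0 : 0 < P := by linarith
  -- |p + p'| ≥ P
  have hsum : P ≤ |(w.2 : ℝ) + w'.2| := by
    have ha := h.p1
    have hb := h'.p1
    by_cases hc : 0 ≤ w.2
    · have hc' : 0 ≤ w'.2 := hs.2.mp hc
      have e1 : (0 : ℝ) ≤ (w.2 : ℝ) := by exact_mod_cast hc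
      have e2 : (0 : ℝ) ≤ (w'.2 : ℝ) := by exact_mod_cast hc'
      rw [abs_of_nonneg e1] at ha
      rw [abs_of_nonneg e2] at hb
      rw [abs_of_nonneg (by linarith)]
      linarith
    · have hc' : ¬ 0 ≤ w'.2 := fun hh => hc (hs.2.mpr hh)
      push Not at hc hc'
      have e1 : (w.2 : ℝ) < 0 := by exact_mod_cast hc
      have e2 : (w'.2 : ℝ) < 0 := by exact_mod_cast hc'
      rw [abs_of_neg e1] at ha
      rw [abs_of_neg e2] at hb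
      rw [abs_of_neg (by linarith)]
      linarith
  have hs4 : |(w.1 : ℝ) + w'.1| ≤ 4 * ρ := by
    calc |(w.1 : ℝ) + w'.1| ≤ |(w.1 : ℝ)| + |(w'.1 : ℝ)| := abs_add_le _ _
      _ ≤ 4 * ρ := by linarith
  -- |p - p'| |p + p'| ≤ 2 C₁ κ + 4 ρ κ
  have hprod : |(w.2 : ℝ) - w'.2| * |(w.2 : ℝ) + w'.2| ≤ 2 * C₁ * κ + 4 * ρ * κ := by
    rw [← abs_mul]
    have e1 : ((w.2 : ℝ) - w'.2) * ((w.2 : ℝ) + w'.2) =
        ((nsq w : ℝ) - nsq w') - ((w.1 : ℝ) - w'.1) * ((w.1 : ℝ) + w'.1) := by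
      rw [nsq_cast_H86, nsq_cast_H86]
      ring
    rw [e1]
    calc |((nsq w : ℝ) - nsq w') - ((w.1 : ℝ) - w'.1) * ((w.1 : ℝ) + w'.1)|
        ≤ |(nsq w : ℝ) - nsq w'| + |((w.1 : ℝ) - w'.1) * ((w.1 : ℝ) + w'.1)| := abs_sub _ _
      _ = |(nsq w : ℝ) - nsq w'| + |(w.1 : ℝ) - w'.1| * |(w.1 : ℝ) + w'.1| := by rw [abs_mul]
      _ ≤ 2 * C₁ * κ + κ * (4 * ρ) := by
          apply add_le_add h2
          exact mul_le_mul h1 hs4 (abs_nonneg _) (by linarith)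
      _ = 2 * C₁ * κ + 4 * ρ * κ := by ring
  have hpd : |(w.2 : ℝ) - w'.2| * P ≤ (2 * C₁ + 4) * κ * ρ := by
    calc |(w.2 : ℝ) - w'.2| * P ≤ |(w.2 : ℝ) - w'.2| * |(w.2 : ℝ) + w'.2| :=
          mul_le_mul_of_nonneg_left hsum (abs_nonneg _)
      _ ≤ 2 * C₁ * κ + 4 * ρ * κ := hprod
      _ ≤ (2 * C₁ + 4) * κ * ρ := by
          nlinarith [mul_nonneg (mul_nonneg (by linarith : (0:ℝ) ≤ C₁) (by linarith : (0:ℝ) ≤ κ))
            (by linarith : (0:ℝ) ≤ ρ - 1)]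
  have hsd : |(w.1 : ℝ) - w'.1| * P ≤ 3 * κ * ρ := by
    calc |(w.1 : ℝ) - w'.1| * P ≤ κ * (3 * ρ) :=
          mul_le_mul h1 hPρ hP0.le (by linarith)
      _ = 3 * κ * ρ := by ring
  rw [div_pow, le_div_iff₀ (by positivity)]
  have e2 : (nsq (w' - w) : ℝ) = |(w.1 : ℝ) - w'.1| ^ 2 + |(w.2 : ℝ) - w'.2| ^ 2 := by
    rw [nsq_cast_H86, sq_abs, sq_abs]
    simp only [Prod.fst_sub, Prod.snd_sub]
    push_cast
    ring
  rw [e2]
  have e3 : (|(w.1 : ℝ) - w'.1| ^ 2 + |(w.2 : ℝ) - w'.2| ^ 2) * P ^ 2 =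
      (|(w.1 : ℝ) - w'.1| * P) ^ 2 + (|(w.2 : ℝ) - w'.2| * P) ^ 2 := by ring
  rw [e3]
  have hn1 : 0 ≤ |(w.1 : ℝ) - w'.1| * P := mul_nonneg (abs_nonneg _) hP0.le
  have hn2 : 0 ≤ |(w.2 : ℝ) - w'.2| * P := mul_nonneg (abs_nonneg _) hP0.le
  calc (|(w.1 : ℝ) - w'.1| * P) ^ 2 + (|(w.2 : ℝ) - w'.2| * P) ^ 2
      ≤ (|(w.1 : ℝ) - w'.1| * P + |(w.2 : ℝ) - w'.2| * P) ^ 2 := by
        nlinarith [mul_nonneg hn1 hn2]
    _ ≤ ((2 * C₁ + 7) * κ * ρ) ^ 2 := by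
        apply pow_le_pow_left₀ (by positivity)
        linarith

theorem cta (hA : S_ARC) : S_CTA := by
  intro C₁ hC₁
  obtain ⟨CA, hCA, hARC⟩ := hA
  refine ⟨1 / (100000 * C₁), 4 * CA * (2 * C₁ + 2 * (2 * C₁ + 7) + 8 * C₁ * (2 * C₁ + 7)),
    by positivity, by positivity, ?_⟩
  intro P ρ κ w S hP hρ hκ hκle hw hS
  obtain ⟨hw1, hw2⟩ := cl_size_H86 hρ hw
  obtain ⟨x, hx⟩ : ∃ x : ℝ, x = ρ ^ (1 / 3 : ℝ) := ⟨_, rfl⟩
  have hx1 : 1 ≤ x := by rw [hx]; exact Real.one_le_rpow hρ (by norm_num)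
  have hx0 : 0 < x := by linarith
  have hx3 : x ^ 3 = ρ := by
    rw [hx, ← Real.rpow_natCast, ← Real.rpow_mul (by linarith)]
    norm_num
  have hx4 : ρ ^ (4 / 3 : ℝ) = x ^ 4 := by
    rw [hx, ← Real.rpow_natCast, ← Real.rpow_mul (by linarith)]
    norm_num
  rw [hx4] at hκle
  have hκ4 : κ * x ^ 4 * (100000 * C₁) ≤ P ^ 2 := by
    rw [le_div_iff₀ (by positivity)] at hκle
    calc κ * x ^ 4 * (100000 * C₁) ≤ 1 / (100000 * C₁) * P ^ 2 * (100000 * C₁) :=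
          mul_le_mul_of_nonneg_right hκle (by positivity)
      _ = P ^ 2 := by field_simp
  have hPρ : P ≤ 3 * ρ := by linarith [hw.p1]
  have hP0 : 0 < P := by linarith
  have hκ0 : 0 < κ := by linarith
  have hC0 : 0 < C₁ := by linarith
  have hx41 : 1 ≤ x ^ 4 := one_le_pow₀ hx1
  have hP2 : 2 ≤ P := by
    by_contra hc
    push Not at hc
    have h1 : P ^ 2 < 4 := by nlinarith
    have h2 : 1 ≤ κ * x ^ 4 := by nlinarith
    nlinarith [mul_le_mul h2 hC₁ (by norm_num) (by positivity)]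
  -- κ * C₁ * 100000 ≤ 9 x²
  have hκx : κ * C₁ * 100000 ≤ 9 * x ^ 2 := by
    have h1 : P ^ 2 ≤ 9 * x ^ 6 := by
      calc P ^ 2 ≤ (3 * ρ) ^ 2 := pow_le_pow_left₀ hP0.le hPρ 2
        _ = 9 * x ^ 6 := by rw [← hx3]; ring
    have h2 : (κ * C₁ * 100000) * x ^ 4 ≤ (9 * x ^ 2) * x ^ 4 := by
      calc (κ * C₁ * 100000) * x ^ 4 = κ * x ^ 4 * (100000 * C₁) := by ring
        _ ≤ P ^ 2 := hκ4
        _ ≤ 9 * x ^ 6 := h1
        _ = (9 * x ^ 2) * x ^ 4 := by ring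
    exact le_of_mul_le_mul_right h2 (by positivity)
  have hκC : 1 ≤ κ * C₁ := by nlinarith
  have hx2 : 10000 ≤ x ^ 2 := by linarith
  have hρx : x ^ 2 ≤ ρ := by
    rw [← hx3]
    nlinarith [sq_nonneg x]
  have hρ2 : 10000 ≤ ρ := by linarith
  -- r
  obtain ⟨r, hr⟩ : ∃ r : ℝ, r = Real.sqrt (nsq w) := ⟨_, rfl⟩
  have hnw : (0 : ℝ) ≤ nsq w := by rw [nsq_cast_H86]; positivity
  have hrsq : r ^ 2 = nsq w := by rw [hr]; exact Real.sq_sqrt hnw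
  have hr0 : 0 ≤ r := by rw [hr]; exact Real.sqrt_nonneg _
  have hrl : ρ / 2 ≤ r := by
    apply le_of_sq_le_sq_H86 hr0
    rw [hrsq]
    nlinarith [hw.r1]
  have hru : r ≤ 2 * ρ := by
    apply le_of_sq_le_sq_H86 (by linarith)
    rw [hrsq]
    nlinarith [hw.r2]
  have hr1 : 1 ≤ r := by linarith
  obtain ⟨y, hy⟩ : ∃ y : ℝ, y = r ^ (1 / 3 : ℝ) := ⟨_, rfl⟩
  have hy0 : 0 < y := by rw [hy]; exact Real.rpow_pos_of_pos (by linarith) _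
  have hy3 : y ^ 3 = r := by
    rw [hy, ← Real.rpow_natCast, ← Real.rpow_mul hr0]
    norm_num
  have hy2 : r ^ (2 / 3 : ℝ) = y ^ 2 := by
    rw [hy, ← Real.rpow_natCast, ← Real.rpow_mul hr0]
    norm_num
  have hyx : x / 2 ≤ y := by
    by_contra hc
    push Not at hc
    have h1 : y ^ 3 < (x / 2) ^ 3 := pow_lt_pow_left₀ hc hy0.le (by norm_num)
    rw [hy3] at h1
    have h2 : (x / 2) ^ 3 = ρ / 8 := by rw [← hx3]; ring
    rw [h2] at h1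
    linarith
  have hyx2 : x ^ 2 / 4 ≤ y ^ 2 := by
    calc x ^ 2 / 4 = (x / 2) ^ 2 := by ring
      _ ≤ y ^ 2 := pow_le_pow_left₀ (by positivity) hyx 2
  -- κ x ≤ P
  have hκxP : κ * x * (100000 * C₁) ≤ 3 * P := by
    have h1 : (κ * x * (100000 * C₁)) * x ^ 3 ≤ (3 * P) * x ^ 3 := by
      calc (κ * x * (100000 * C₁)) * x ^ 3 = κ * x ^ 4 * (100000 * C₁) := by ring
        _ ≤ P ^ 2 := hκ4
        _ = P * P := by ring
        _ ≤ P * (3 * ρ) := mul_le_mul_of_nonneg_left hPρ hP0.le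
        _ = (3 * P) * x ^ 3 := by rw [← hx3]; ring
    exact le_of_mul_le_mul_right h1 (by positivity)
  have hκxP' : κ * x ≤ P := by
    have h1 : κ * x ≤ κ * x * C₁ := le_mul_of_one_le_right (by positivity) hC₁
    linarith
  have hκCP : κ * C₁ * 100000 ≤ 3 * P := by
    calc κ * C₁ * 100000 = κ * 1 * (100000 * C₁) := by ring
      _ ≤ κ * x * (100000 * C₁) := by
          apply mul_le_mul_of_nonneg_right _ (by positivity)
          exact mul_le_mul_of_nonneg_left hx1 hκ0.le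
      _ ≤ 3 * P := hκxP
  obtain ⟨t, ht⟩ : ∃ t : ℝ, t = Real.sqrt κ := ⟨_, rfl⟩
  have ht0 : 0 < t := by rw [ht]; exact Real.sqrt_pos.mpr hκ0
  have htt : t ^ 2 = κ := by rw [ht]; exact Real.sq_sqrt hκ0.le
  have htx : t * x ^ 2 ≤ P := by
    apply le_of_sq_le_sq_H86 hP0.le
    calc (t * x ^ 2) ^ 2 = κ * x ^ 4 := by rw [← htt]; ring
      _ ≤ κ * x ^ 4 * (100000 * C₁) :=
          le_mul_of_one_le_right (by positivity) (by linarith)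
      _ ≤ P ^ 2 := hκ4
  -- the hypotheses of ARC
  have hAH : AH w r (2 * C₁ * κ) ((2 * C₁ + 7) * κ * ρ / P) := by
    refine ⟨hr1, hrsq, by nlinarith, ?_, ?_, ?_⟩
    · rw [le_div_iff₀ hP0, one_mul]
      have h1 : 9 ≤ (2 * C₁ + 7) * κ := by nlinarith
      nlinarith
    · rw [hy2]
      linarith
    · rw [← mul_div_assoc, div_le_iff₀ hP0]
      have h1 : 1000 * ((2 * C₁ + 7) * κ * ρ) ≤ 9000 * (κ * C₁) * ρ := by
        have h2 : (2 * C₁ + 7) * κ ≤ 9 * (κ * C₁) := by nlinarith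
        have h3 := mul_le_mul_of_nonneg_right h2 (by linarith : (0:ℝ) ≤ ρ)
        linarith
      have h4 : 9000 * (κ * C₁) * ρ ≤ (P / 2) * ρ := by
        apply mul_le_mul_of_nonneg_right _ (by linarith)
        linarith
      have h5 : (P / 2) * ρ ≤ r * P := by nlinarith
      linarith
  have hMem : ∀ z ∈ S, Mem w (2 * C₁ * κ) ((2 * C₁ + 7) * κ * ρ / P) z := by
    intro z hz
    obtain ⟨g1, g2, g3, g4⟩ := hS z hz
    refine ⟨mem_size_H86 hP2 hρ hκ hC₁ hPρ hw g1 g2 g3 g4, ?_⟩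
    rw [abs_sub_comm]
    exact g4
  have hfin := hARC w r (2 * C₁ * κ) ((2 * C₁ + 7) * κ * ρ / P) S hAH hMem
  rw [hy2, ← hy] at hfin
  have hlogρ : 0 ≤ Real.log ρ := Real.log_nonneg hρ
  have hlogr : 0 ≤ Real.log r := Real.log_nonneg hr1
  have hlog : 1 + Real.log r ≤ 2 * (1 + Real.log ρ) := by
    have h1 : Real.log r ≤ Real.log (2 * ρ) := Real.log_le_log (by linarith) hru
    rw [Real.log_mul (by norm_num) (by linarith)] at h1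
    have h2 := Real.log_two_lt_d9
    linarith
  have hlog2 : (1 + Real.log r) ^ 2 ≤ 4 * (1 + Real.log ρ) ^ 2 := by
    calc (1 + Real.log r) ^ 2 ≤ (2 * (1 + Real.log ρ)) ^ 2 :=
          pow_le_pow_left₀ (by linarith) hlog 2
      _ = 4 * (1 + Real.log ρ) ^ 2 := by ring
  have hK : Real.sqrt (2 * C₁ * κ) ≤ 2 * C₁ * t := by
    apply Real.sqrt_le_iff.mpr
    refine ⟨by positivity, ?_⟩
    calc 2 * C₁ * κ = 2 * C₁ * t ^ 2 := by rw [htt]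
      _ ≤ (2 * C₁) * (2 * C₁ * t ^ 2) := le_mul_of_one_le_left (by positivity) (by linarith)
      _ = (2 * C₁ * t) ^ 2 := by ring
  have hl1 : (2 * C₁ + 7) * κ * ρ / P / y ≤ 2 * (2 * C₁ + 7) * t := by
    rw [div_le_iff₀ hy0, div_le_iff₀ hP0]
    calc (2 * C₁ + 7) * κ * ρ = (2 * C₁ + 7) * (t * x) * (t * x ^ 2) := by
          rw [← htt, ← hx3]; ring
      _ ≤ (2 * C₁ + 7) * (t * x) * P := mul_le_mul_of_nonneg_left htx (by positivity)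
      _ = 2 * (2 * C₁ + 7) * t * (x / 2) * P := by ring
      _ ≤ 2 * (2 * C₁ + 7) * t * y * P := by
          apply mul_le_mul_of_nonneg_right _ hP0.le
          exact mul_le_mul_of_nonneg_left hyx (by positivity)
  have hl2 : (2 * C₁ + 7) * κ * ρ / P / y ^ 2 ≤ 4 * (2 * C₁ + 7) := by
    rw [div_le_iff₀ (by positivity), div_le_iff₀ hP0]
    calc (2 * C₁ + 7) * κ * ρ = (2 * C₁ + 7) * x ^ 2 * (κ * x) := by
          rw [← hx3]; ring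
      _ ≤ (2 * C₁ + 7) * x ^ 2 * P := mul_le_mul_of_nonneg_left hκxP' (by positivity)
      _ = 4 * (2 * C₁ + 7) * (x ^ 2 / 4) * P := by ring
      _ ≤ 4 * (2 * C₁ + 7) * y ^ 2 * P := by
          apply mul_le_mul_of_nonneg_right _ hP0.le
          exact mul_le_mul_of_nonneg_left hyx2 (by positivity)
  have hl3 : (2 * C₁ + 7) * κ * ρ / P * Real.sqrt (2 * C₁ * κ) / y ^ 2 ≤
      8 * C₁ * (2 * C₁ + 7) * t := by
    calc (2 * C₁ + 7) * κ * ρ / P * Real.sqrt (2 * C₁ * κ) / y ^ 2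
        = ((2 * C₁ + 7) * κ * ρ / P / y ^ 2) * Real.sqrt (2 * C₁ * κ) := by ring
      _ ≤ (4 * (2 * C₁ + 7)) * (2 * C₁ * t) :=
          mul_le_mul hl2 hK (Real.sqrt_nonneg _) (by positivity)
      _ = 8 * C₁ * (2 * C₁ + 7) * t := by ring
  rw [← ht]
  calc (S.card : ℝ) ≤ CA * (1 + Real.log r) ^ 2 * (Real.sqrt (2 * C₁ * κ) +
        (2 * C₁ + 7) * κ * ρ / P / y + (2 * C₁ + 7) * κ * ρ / P * Real.sqrt (2 * C₁ * κ) / y ^ 2) := hfin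
    _ ≤ CA * (4 * (1 + Real.log ρ) ^ 2) *
        (2 * C₁ * t + 2 * (2 * C₁ + 7) * t + 8 * C₁ * (2 * C₁ + 7) * t) := by
        apply mul_le_mul
        · exact mul_le_mul_of_nonneg_left hlog2 hCA.le
        · linarith
        · positivity
        · positivity
    _ = 4 * CA * (2 * C₁ + 2 * (2 * C₁ + 7) + 8 * C₁ * (2 * C₁ + 7)) *
        (1 + Real.log ρ) ^ 2 * t := by ring

end Pool.Agent.H79.QN
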