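import Pool.Agent.H86.QN.CTA

/-!
# Row SMA of board `qn`: dyadic sum over the near diagonal terms
-/

set_option autoImplicit false

namespace Pool.Agent.H79.QN

theorem sma (hC : S_CTA) : S_SMA := by
  classical
  intro C₁ hC₁
  obtain ⟨c, C, hc, hCpos, h⟩ := hC C₁ hC₁
  refine ⟨min (c / 2) (1 / 9), 4 * C, lt_min (by positivity) (by norm_num), by positivity, ?_⟩
  intro P ρ L w S hP hρ hL hw hS
  have hρ0 : 0 < ρ := by linarith
  have hρ43 : 0 < ρ ^ (4 / 3 : ℝ) := Real.rpow_pos_of_pos hρ0 _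
  have hρ43' : ρ ≤ ρ ^ (4 / 3 : ℝ) := by
    calc ρ = ρ ^ (1 : ℝ) := (Real.rpow_one ρ).symm
      _ ≤ ρ ^ (4 / 3 : ℝ) := Real.rpow_le_rpow_of_exponent_le hρ (by norm_num)
  have hlogρ : 0 ≤ Real.log ρ := Real.log_nonneg hρ
  obtain ⟨_, hw2⟩ := cl_size_H86 hρ hw
  have hPρ : P ≤ 3 * ρ := by linarith [hw.p1]
  have hL1 : 2 * L ≤ c * P ^ 2 / ρ ^ (4 / 3 : ℝ) := by
    have h1 : L ≤ c / 2 * P ^ 2 / ρ ^ (4 / 3 : ℝ) := by
      refine hL.trans ?_
      apply div_le_div_of_nonneg_right _ hρ43.le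
      exact mul_le_mul_of_nonneg_right (min_le_left _ _) (by positivity)
    calc 2 * L ≤ 2 * (c / 2 * P ^ 2 / ρ ^ (4 / 3 : ℝ)) := by linarith
      _ = c * P ^ 2 / ρ ^ (4 / 3 : ℝ) := by ring
  have hL2 : L ≤ ρ := by
    have h1 : L ≤ 1 / 9 * P ^ 2 / ρ ^ (4 / 3 : ℝ) := by
      refine hL.trans ?_
      apply div_le_div_of_nonneg_right _ hρ43.le
      exact mul_le_mul_of_nonneg_right (min_le_right _ _) (by positivity)
    refine h1.trans ?_
    rw [div_le_iff₀ hρ43]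
    calc 1 / 9 * P ^ 2 ≤ 1 / 9 * (3 * ρ) ^ 2 := by
          apply mul_le_mul_of_nonneg_left _ (by norm_num)
          exact pow_le_pow_left₀ (by linarith) hPρ 2
      _ = ρ * ρ := by ring
      _ ≤ ρ * ρ ^ (4 / 3 : ℝ) := mul_le_mul_of_nonneg_left hρ43' hρ0.le
  -- dyadic sizes
  have habs : ∀ w' : ℤ × ℤ, |(w.1 : ℝ) - w'.1| = (((w.1 - w'.1).natAbs : ℕ) : ℝ) := by
    intro w'
    rw [Nat.cast_natAbs, Int.cast_abs, Int.cast_sub]
  have hlow : ∀ w' ∈ S, (2 : ℝ) ^ (Nat.log 2 (w.1 - w'.1).natAbs) ≤ |(w.1 : ℝ) - w'.1| := by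
    intro w' hw'
    obtain ⟨_, _, h3, _, _⟩ := hS w' hw'
    have h4 : (w.1 - w'.1).natAbs ≠ 0 := by
      intro h5
      apply h3
      have := Int.natAbs_eq_zero.mp h5
      omega
    rw [habs]
    exact_mod_cast Nat.pow_log_le_self 2 h4
  have hupp : ∀ w' ∈ S, |(w.1 : ℝ) - w'.1| ≤ (2 : ℝ) ^ (Nat.log 2 (w.1 - w'.1).natAbs + 1) := by
    intro w' _
    rw [habs]
    exact_mod_cast (Nat.lt_pow_succ_log_self (by norm_num : 1 < 2) (w.1 - w'.1).natAbs).le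
  have hmaps : ∀ w' ∈ S, Nat.log 2 (w.1 - w'.1).natAbs ∈
      Finset.range (⌊2 * Real.log ρ⌋₊ + 1) := by
    intro w' hw'
    obtain ⟨_, _, _, h4, _⟩ := hS w' hw'
    rw [Finset.mem_range, Nat.lt_succ_iff]
    apply Nat.le_floor
    have h5 : (2 : ℝ) ^ (Nat.log 2 (w.1 - w'.1).natAbs) ≤ ρ :=
      (hlow w' hw').trans (h4.trans hL2)
    have h6 := Real.log_le_log (by positivity) h5
    rw [Real.log_pow] at h6
    have h7 := Real.log_two_gt_d9
    have h8 : (0 : ℝ) ≤ (Nat.log 2 (w.1 - w'.1).natAbs : ℝ) := Nat.cast_nonneg _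
    nlinarith
  rw [← Finset.sum_fiberwise_of_maps_to hmaps]
  have hone : ∀ t ∈ Finset.range (⌊2 * Real.log ρ⌋₊ + 1),
      ∑ w' ∈ S with Nat.log 2 (w.1 - w'.1).natAbs = t, 1 / Real.sqrt |(w.1 : ℝ) - w'.1| ≤
        2 * C * (1 + Real.log ρ) ^ 2 := by
    intro t _
    rcases (S.filter (fun w' => Nat.log 2 (w.1 - w'.1).natAbs = t)).eq_empty_or_nonempty
      with hemp | ⟨w₁, hw₁⟩
    · rw [hemp, Finset.sum_empty]
      positivity
    · obtain ⟨hw₁S, hw₁t⟩ := Finset.mem_filter.mp hw₁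
      have hpow : (2 : ℝ) ^ t ≤ L := by
        obtain ⟨_, _, _, h4, _⟩ := hS w₁ hw₁S
        have := hlow w₁ hw₁S
        rw [hw₁t] at this
        linarith
      have hκ : (2 : ℝ) ^ (t + 1) ≤ c * P ^ 2 / ρ ^ (4 / 3 : ℝ) := by
        rw [pow_succ]
        linarith
      have hcard := h P ρ (2 ^ (t + 1)) w
        (S.filter (fun w' => Nat.log 2 (w.1 - w'.1).natAbs = t)) hP hρ
        (one_le_pow₀ (by norm_num)) hκ hw (by
          intro w' hw'
          obtain ⟨hw'S, hw't⟩ := Finset.mem_filter.mp hw'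
          obtain ⟨g1, g2, _, _, g5⟩ := hS w' hw'S
          have hu := hupp w' hw'S
          rw [hw't] at hu
          refine ⟨g1, g2, hu, g5.trans ?_⟩
          exact mul_le_mul_of_nonneg_left hu (by linarith))
      have h2t : 0 < Real.sqrt ((2 : ℝ) ^ t) := Real.sqrt_pos.mpr (by positivity)
      have hterm : ∀ w' ∈ S.filter (fun w' => Nat.log 2 (w.1 - w'.1).natAbs = t),
          1 / Real.sqrt |(w.1 : ℝ) - w'.1| ≤ 1 / Real.sqrt ((2 : ℝ) ^ t) := by
        intro w' hw'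
        obtain ⟨hw'S, hw't⟩ := Finset.mem_filter.mp hw'
        have hl := hlow w' hw'S
        rw [hw't] at hl
        exact one_div_le_one_div_of_le h2t (Real.sqrt_le_sqrt hl)
      have hsq : Real.sqrt ((2 : ℝ) ^ (t + 1)) ≤ 2 * Real.sqrt ((2 : ℝ) ^ t) := by
        rw [pow_succ, Real.sqrt_mul (by positivity)]
        have h2 : Real.sqrt 2 ≤ 2 := by
          rw [Real.sqrt_le_iff]
          norm_num
        calc Real.sqrt ((2 : ℝ) ^ t) * Real.sqrt 2 ≤ Real.sqrt ((2 : ℝ) ^ t) * 2 :=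
              mul_le_mul_of_nonneg_left h2 h2t.le
          _ = 2 * Real.sqrt ((2 : ℝ) ^ t) := by ring
      calc ∑ w' ∈ S with Nat.log 2 (w.1 - w'.1).natAbs = t, 1 / Real.sqrt |(w.1 : ℝ) - w'.1|
          ≤ ∑ _w' ∈ S with Nat.log 2 (w.1 - _w'.1).natAbs = t, 1 / Real.sqrt ((2 : ℝ) ^ t) :=
            Finset.sum_le_sum hterm
        _ = ((S.filter (fun w' => Nat.log 2 (w.1 - w'.1).natAbs = t)).card : ℝ) *
            (1 / Real.sqrt ((2 : ℝ) ^ t)) := by
            rw [Finset.sum_const, nsmul_eq_mul]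
        _ ≤ (C * (1 + Real.log ρ) ^ 2 * (2 * Real.sqrt ((2 : ℝ) ^ t))) *
            (1 / Real.sqrt ((2 : ℝ) ^ t)) := by
            apply mul_le_mul_of_nonneg_right _ (by positivity)
            refine hcard.trans ?_
            exact mul_le_mul_of_nonneg_left hsq (by positivity)
        _ = 2 * C * (1 + Real.log ρ) ^ 2 := by
            field_simp
  calc ∑ t ∈ Finset.range (⌊2 * Real.log ρ⌋₊ + 1),
        ∑ w' ∈ S with Nat.log 2 (w.1 - w'.1).natAbs = t, 1 / Real.sqrt |(w.1 : ℝ) - w'.1|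
      ≤ ∑ _t ∈ Finset.range (⌊2 * Real.log ρ⌋₊ + 1), 2 * C * (1 + Real.log ρ) ^ 2 :=
        Finset.sum_le_sum hone
    _ = ((⌊2 * Real.log ρ⌋₊ : ℝ) + 1) * (2 * C * (1 + Real.log ρ) ^ 2) := by
        rw [Finset.sum_const, Finset.card_range, nsmul_eq_mul]
        push_cast
        ring
    _ ≤ (2 * (1 + Real.log ρ)) * (2 * C * (1 + Real.log ρ) ^ 2) := by
        apply mul_le_mul_of_nonneg_right _ (by positivity)
        have := Nat.floor_le (by positivity : 0 ≤ 2 * Real.log ρ)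
        linarith
    _ = 4 * C * (1 + Real.log ρ) ^ 3 := by ring

end Pool.Agent.H79.QN
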