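import Pool.Agent.H86.QN.VDK

/-!
# Row KEK of board `qn`: kernel bounds for phases of finite type
-/

set_option autoImplicit false

namespace Pool.Agent.H79.QN

open Set

theorem deriv_theta_H86 (φ : ℝ → ℝ) (hφ : Differentiable ℝ φ) (u m : ℝ) :
    deriv (fun x => u * x + m * φ x) = fun x => u + m * deriv φ x := by
  funext x
  have h : HasDerivAt (fun x => u * x + m * φ x) (u * 1 + m * deriv φ x) x :=
    ((hasDerivAt_id x).const_mul u).add ((hφ x).hasDerivAt.const_mul m)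
  rw [h.deriv, mul_one]

theorem deriv2_theta_H86 (φ : ℝ → ℝ) (hφ : Differentiable ℝ φ) (u m : ℝ) :
    deriv (deriv (fun x => u * x + m * φ x)) = fun x => m * deriv (deriv φ) x := by
  rw [deriv_theta_H86 φ hφ]
  funext x
  rw [deriv_const_add, deriv_const_mul_field]

theorem iter_theta_H86 (φ : ℝ → ℝ) (hφ : Differentiable ℝ φ) (u m : ℝ) (j : ℕ) (hj : 2 ≤ j)
    (x : ℝ) :
    iteratedDeriv j (fun x => u * x + m * φ x) x = m * iteratedDeriv j φ x := by
  obtain ⟨n, rfl⟩ := Nat.exists_eq_add_of_le' hj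
  rw [show n + 2 = (n + 1) + 1 from rfl, iteratedDeriv_succ', iteratedDeriv_succ',
    deriv2_theta_H86 φ hφ, iteratedDeriv_const_mul_field, iteratedDeriv_succ', iteratedDeriv_succ']

/-- one piece on which one derivative is bounded below -/
theorem piece_H86 (hV : S_VDK) (k : ℕ) (φ : ℝ → ℝ) (hφ : ContDiff ℝ k φ) (j : ℕ) (hj : 2 ≤ j)
    (hjk : j ≤ k) (a b μ β : ℝ) (hab : a ≤ b) (hμ : 0 < μ) (hβ : 0 < β)
    (h : ∀ x ∈ Icc a b, μ ≤ |iteratedDeriv j φ x|) :
    ∃ A : ℝ, 0 ≤ A ∧ ∀ u m : ℤ, u ≠ 0 → |(u : ℝ)| ≤ 2 * β * |(m : ℝ)| →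
      ‖∫ x in a..b, e (u * x + m * φ x)‖ ≤ A / |(u : ℝ)| ^ (1 / k : ℝ) := by
  obtain ⟨C, hC, hV⟩ := hV j hj
  refine ⟨C * (μ / (2 * β)) ^ (-(1 / j : ℝ)), by positivity, ?_⟩
  intro u m hu hum
  have hjR : (0 : ℝ) < j := by
    have : (2 : ℝ) ≤ (j : ℝ) := by exact_mod_cast hj
    linarith
  have hjkR : (j : ℝ) ≤ k := by exact_mod_cast hjk
  have hu1 : (1 : ℝ) ≤ |(u : ℝ)| := by
    have : (1 : ℤ) ≤ |u| := Int.one_le_abs hu
    exact_mod_cast this
  have hu0 : (0 : ℝ) < |(u : ℝ)| := by linarith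
  have hdiff : Differentiable ℝ φ := hφ.differentiable (by
    have : (k : WithTop ℕ∞) ≠ 0 := by
      exact_mod_cast (by omega : k ≠ 0)
    exact this)
  have hθ : ContDiff ℝ j (fun x : ℝ => (u : ℝ) * x + (m : ℝ) * φ x) := by
    have h1 : ContDiff ℝ j φ := hφ.of_le (by exact_mod_cast hjk)
    exact (contDiff_const.mul contDiff_id).add (contDiff_const.mul h1)
  have hμ' : 0 < |(u : ℝ)| * (μ / (2 * β)) := by positivity
  have hmain := hV (fun x : ℝ => (u : ℝ) * x + (m : ℝ) * φ x) a b (|(u : ℝ)| * (μ / (2 * β)))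
    hab hθ hμ' (by
      intro x hx
      rw [iter_theta_H86 φ hdiff _ _ j hj, abs_mul]
      calc |(u : ℝ)| * (μ / (2 * β)) ≤ (2 * β * |(m : ℝ)|) * (μ / (2 * β)) :=
            mul_le_mul_of_nonneg_right hum (by positivity)
        _ = |(m : ℝ)| * μ := by field_simp
        _ ≤ |(m : ℝ)| * |iteratedDeriv j φ x| :=
            mul_le_mul_of_nonneg_left (h x hx) (abs_nonneg _))
  refine hmain.trans ?_
  rw [Real.mul_rpow hu0.le (by positivity)]
  have hexp : |(u : ℝ)| ^ (-(1 / j : ℝ)) ≤ 1 / |(u : ℝ)| ^ (1 / k : ℝ) := by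
    have heq : 1 / |(u : ℝ)| ^ (1 / k : ℝ) = |(u : ℝ)| ^ (-(1 / k : ℝ)) := by
      rw [Real.rpow_neg hu0.le]
      exact one_div _
    rw [heq]
    apply Real.rpow_le_rpow_of_exponent_le hu1
    apply neg_le_neg
    exact one_div_le_one_div_of_le hjR hjkR
  have hpos : 0 ≤ C * (μ / (2 * β)) ^ (-(1 / j : ℝ)) := by positivity
  calc C * (|(u : ℝ)| ^ (-(1 / j : ℝ)) * (μ / (2 * β)) ^ (-(1 / j : ℝ)))
      = (C * (μ / (2 * β)) ^ (-(1 / j : ℝ))) * |(u : ℝ)| ^ (-(1 / j : ℝ)) := by ring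
    _ ≤ (C * (μ / (2 * β)) ^ (-(1 / j : ℝ))) * (1 / |(u : ℝ)| ^ (1 / k : ℝ)) :=
        mul_le_mul_of_nonneg_left hexp hpos
    _ = C * (μ / (2 * β)) ^ (-(1 / j : ℝ)) / |(u : ℝ)| ^ (1 / k : ℝ) := by ring

/-- a finite partition of `[-1, 1]` -/
theorem partition_H86 (k : ℕ) (φ : ℝ → ℝ) (h : FT k φ) :
    ∃ (n : ℕ) (t : ℕ → ℝ) (j : ℕ → ℕ) (μ : ℕ → ℝ), t 0 = -1 ∧ t n = 1 ∧ Monotone t ∧
      (∀ i, 2 ≤ j i ∧ j i ≤ k ∧ 0 < μ i ∧
        ∀ x ∈ Icc (t i) (t (i + 1)), μ i ≤ |iteratedDeriv (j i) φ x|) := by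
  have hft := h.ft
  choose! jf hj2 hjk hne using hft
  have hcont : ∀ y ∈ Icc (-1 : ℝ) 1, Continuous (iteratedDeriv (jf y) φ) := by
    intro y hy
    exact h.smooth.continuous_iteratedDeriv (jf y) (by exact_mod_cast hjk y hy)
  obtain ⟨t, ht0, hmono, ⟨n, hn⟩, hcov⟩ := exists_monotone_Icc_subset_open_cover_Icc
    (a := (-1 : ℝ)) (b := 1) (by norm_num)
    (c := fun y : Icc (-1 : ℝ) 1 =>
      {x : Icc (-1 : ℝ) 1 | |iteratedDeriv (jf y) φ y| / 2 < |iteratedDeriv (jf y) φ x|})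
    (by
      intro y
      have h1 : Continuous (fun x : Icc (-1 : ℝ) 1 => |iteratedDeriv (jf y) φ x|) :=
        ((hcont y y.2).comp continuous_subtype_val).abs
      exact isOpen_lt continuous_const h1)
    (by
      intro x _
      rw [mem_iUnion]
      refine ⟨x, ?_⟩
      have h1 : 0 < |iteratedDeriv (jf x) φ x| := abs_pos.mpr (hne x x.2)
      simp only [mem_setOf_eq]
      linarith)
  choose idx hidx using hcov
  refine ⟨n, fun i => (t i : ℝ), fun i => jf (idx i),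
    fun i => |iteratedDeriv (jf (idx i)) φ (idx i)| / 2, ?_, ?_, ?_, ?_⟩
  · simpa using ht0
  · simpa using hn n le_rfl
  · intro i i' hii
    exact hmono hii
  · intro i
    refine ⟨hj2 _ (idx i).2, hjk _ (idx i).2, ?_, ?_⟩
    · have h1 : 0 < |iteratedDeriv (jf (idx i)) φ (idx i)| := abs_pos.mpr (hne _ (idx i).2)
      linarith
    · intro x hx
      have hx1 : x ∈ Icc (-1 : ℝ) 1 := ⟨(t i).2.1.trans hx.1, hx.2.trans (t (i + 1)).2.2⟩
      have h2 : (⟨x, hx1⟩ : Icc (-1 : ℝ) 1) ∈ Icc (t i) (t (i + 1)) := ⟨hx.1, hx.2⟩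
      exact (hidx i h2).le

theorem kek (hF : S_FD2) (hV : S_VDK) : S_KEK := by
  intro k φ hk h
  have hkR : (0 : ℝ) < k := by
    have : (2 : ℝ) ≤ (k : ℝ) := by exact_mod_cast hk
    linarith
  have h2 : ContDiff ℝ 2 φ := h.smooth.of_le (by exact_mod_cast hk)
  have hdiff : Differentiable ℝ φ := h2.differentiable (by norm_num)
  have hc1 : Continuous (deriv φ) := h2.continuous_deriv (by norm_num)
  have hc2 : Continuous (deriv (deriv φ)) := by
    have h3 := h2.continuous_iteratedDeriv 2 le_rfl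
    rwa [iteratedDeriv_succ, iteratedDeriv_one] at h3
  -- constants
  obtain ⟨xm, hxm, hmin⟩ := isCompact_Icc.exists_isMinOn (nonempty_Icc.mpr (by norm_num : (-1:ℝ) ≤ 1))
    (hc1.abs.continuousOn (s := Icc (-1 : ℝ) 1))
  obtain ⟨α, hα⟩ : ∃ α : ℝ, α = |deriv φ xm| := ⟨_, rfl⟩
  have hα0 : 0 < α := by rw [hα]; exact abs_pos.mpr (h.d1 xm hxm)
  have hαle : ∀ x ∈ Icc (-1 : ℝ) 1, α ≤ |deriv φ x| := by
    intro x hx
    rw [hα]
    exact hmin hx
  obtain ⟨β₀, hβ₀⟩ := isCompact_Icc.exists_bound_of_continuousOn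
    (hc1.continuousOn (s := Icc (-1 : ℝ) 1))
  obtain ⟨M₀, hM₀⟩ := isCompact_Icc.exists_bound_of_continuousOn
    (hc2.continuousOn (s := Icc (-1 : ℝ) 1))
  obtain ⟨β, hβ⟩ : ∃ β : ℝ, β = max β₀ 1 := ⟨_, rfl⟩
  obtain ⟨M, hM⟩ : ∃ M : ℝ, M = max M₀ 0 := ⟨_, rfl⟩
  have hβ0 : 0 < β := by rw [hβ]; exact lt_max_of_lt_right (by norm_num)
  have hM0 : 0 ≤ M := by rw [hM]; exact le_max_right _ _
  have hβle : ∀ x ∈ Icc (-1 : ℝ) 1, |deriv φ x| ≤ β := by
    intro x hx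
    rw [hβ]
    exact (hβ₀ x hx).trans (le_max_left _ _)
  have hMle : ∀ x ∈ Icc (-1 : ℝ) 1, |deriv (deriv φ) x| ≤ M := by
    intro x hx
    rw [hM]
    exact (hM₀ x hx).trans (le_max_left _ _)
  -- the partition
  obtain ⟨n, t, j, μ, ht0, htn, hmono, hpart⟩ := partition_H86 k φ h
  have hpieces : ∀ i, ∃ A : ℝ, 0 ≤ A ∧ ∀ u m : ℤ, u ≠ 0 → |(u : ℝ)| ≤ 2 * β * |(m : ℝ)| →
      ‖∫ x in (t i)..(t (i + 1)), e (u * x + m * φ x)‖ ≤ A / |(u : ℝ)| ^ (1 / k : ℝ) := by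
    intro i
    obtain ⟨g1, g2, g3, g4⟩ := hpart i
    exact piece_H86 hV k φ h.smooth (j i) g1 g2 (t i) (t (i + 1)) (μ i) β
      (hmono (Nat.le_succ i)) g3 hβ0 g4
  choose A hA0 hA using hpieces
  have hAs : 0 ≤ ∑ i ∈ Finset.range n, A i := Finset.sum_nonneg fun i _ => hA0 i
  have hθ2 : ∀ u m : ℤ, ContDiff ℝ 2 (fun x : ℝ => (u : ℝ) * x + (m : ℝ) * φ x) := fun u m =>
    (contDiff_const.mul contDiff_id).add (contDiff_const.mul h2)
  refine ⟨1 + 2 / α, (∑ i ∈ Finset.range n, A i) + (2 + 4 * M / β) + (2 / α + 8 * M / α ^ 2), ?_⟩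
  have hK1 : 0 ≤ 2 + 4 * M / β := by positivity
  have hK2 : 0 < 2 / α + 8 * M / α ^ 2 := by positivity
  refine ⟨?_, by positivity, ?_, ?_, ?_⟩
  · have : 0 < 2 / α := by positivity
    linarith
  · -- b1
    intro u m
    have := norm_int_e_H86 (fun x : ℝ => (u : ℝ) * x + (m : ℝ) * φ x)
      (a := -1) (b := 1) (by norm_num)
    unfold ker
    refine this.trans (by norm_num)
  · -- b2
    intro u m hu _
    have hu1 : (1 : ℝ) ≤ |(u : ℝ)| := by
      have : (1 : ℤ) ≤ |u| := Int.one_le_abs hu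
      exact_mod_cast this
    have hu0 : (0 : ℝ) < |(u : ℝ)| := by linarith
    have hup : 0 < |(u : ℝ)| ^ (1 / k : ℝ) := Real.rpow_pos_of_pos hu0 _
    rcases le_total |(u : ℝ)| (2 * β * |(m : ℝ)|) with hcase | hcase
    · have hcont : Continuous (fun x : ℝ => e ((u : ℝ) * x + (m : ℝ) * φ x)) :=
        cont_e_H86 (hθ2 u m).continuous
      have hsum := intervalIntegral.sum_integral_adjacent_intervals (a := t) (n := n)
        (f := fun x : ℝ => e ((u : ℝ) * x + (m : ℝ) * φ x)) (μ := MeasureTheory.volume)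
        (fun i _ => hcont.intervalIntegrable _ _)
      rw [ht0, htn] at hsum
      unfold ker
      rw [← hsum]
      calc ‖∑ i ∈ Finset.range n, ∫ x in (t i)..(t (i + 1)), e ((u : ℝ) * x + (m : ℝ) * φ x)‖
          ≤ ∑ i ∈ Finset.range n, ‖∫ x in (t i)..(t (i + 1)), e ((u : ℝ) * x + (m : ℝ) * φ x)‖ :=
            norm_sum_le _ _
        _ ≤ ∑ i ∈ Finset.range n, A i / |(u : ℝ)| ^ (1 / k : ℝ) :=
            Finset.sum_le_sum fun i _ => hA i u m hu hcase
        _ = (∑ i ∈ Finset.range n, A i) / |(u : ℝ)| ^ (1 / k : ℝ) := by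
            rw [Finset.sum_div]
        _ ≤ _ := by
            apply div_le_div_of_nonneg_right _ hup.le
            linarith
    · have hlow : ∀ x ∈ Icc (-1 : ℝ) 1,
          |(u : ℝ)| / 2 ≤ |deriv (fun x : ℝ => (u : ℝ) * x + (m : ℝ) * φ x) x| := by
        intro x hx
        rw [deriv_theta_H86 φ hdiff]
        have h3 : |(u : ℝ)| - |(m : ℝ) * deriv φ x| ≤ |(u : ℝ) + (m : ℝ) * deriv φ x| := by
          have := abs_sub_abs_le_abs_sub (u : ℝ) (-((m : ℝ) * deriv φ x))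
          rwa [abs_neg, sub_neg_eq_add] at this
        have h4 : |(m : ℝ) * deriv φ x| ≤ |(m : ℝ)| * β := by
          rw [abs_mul]
          exact mul_le_mul_of_nonneg_left (hβle x hx) (abs_nonneg _)
        simp only
        linarith
      have hupp : ∀ x ∈ Icc (-1 : ℝ) 1,
          |deriv (deriv (fun x : ℝ => (u : ℝ) * x + (m : ℝ) * φ x)) x| ≤
            |(u : ℝ)| * M / (2 * β) := by
        intro x hx
        rw [deriv2_theta_H86 φ hdiff]
        simp only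
        rw [abs_mul, le_div_iff₀ (by positivity)]
        calc |(m : ℝ)| * |deriv (deriv φ) x| * (2 * β) ≤ |(m : ℝ)| * M * (2 * β) := by
              apply mul_le_mul_of_nonneg_right _ (by positivity)
              exact mul_le_mul_of_nonneg_left (hMle x hx) (abs_nonneg _)
          _ = (2 * β * |(m : ℝ)|) * M := by ring
          _ ≤ |(u : ℝ)| * M := mul_le_mul_of_nonneg_right hcase hM0
      have hfd := hF (fun x : ℝ => (u : ℝ) * x + (m : ℝ) * φ x) (-1) 1 (|(u : ℝ)| / 2)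
        (|(u : ℝ)| * M / (2 * β)) (by norm_num) (hθ2 u m) (by positivity) (by positivity)
        hlow hupp
      unfold ker
      refine hfd.trans ?_
      have hle : |(u : ℝ)| ^ (1 / k : ℝ) ≤ |(u : ℝ)| := by
        calc |(u : ℝ)| ^ (1 / k : ℝ) ≤ |(u : ℝ)| ^ (1 : ℝ) := by
              apply Real.rpow_le_rpow_of_exponent_le hu1
              rw [div_le_one hkR]
              have : (2 : ℝ) ≤ (k : ℝ) := by exact_mod_cast hk
              linarith
          _ = |(u : ℝ)| := Real.rpow_one _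
      calc 1 / (|(u : ℝ)| / 2) + (1 - -1) * (|(u : ℝ)| * M / (2 * β)) / (|(u : ℝ)| / 2) ^ 2
          = (2 + 4 * M / β) / |(u : ℝ)| := by
            field_simp
            ring
        _ ≤ (2 + 4 * M / β) / |(u : ℝ)| ^ (1 / k : ℝ) :=
            div_le_div_of_nonneg_left hK1 hup hle
        _ ≤ _ := by
            apply div_le_div_of_nonneg_right _ hup.le
            linarith
  · -- b3
    intro u m hm hum
    have hm1 : (1 : ℝ) ≤ |(m : ℝ)| := by
      have : (1 : ℤ) ≤ |m| := Int.one_le_abs hm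
      exact_mod_cast this
    have hm0 : (0 : ℝ) < |(m : ℝ)| := by linarith
    have hu : |(u : ℝ)| ≤ α * |(m : ℝ)| / 2 := by
      have h3 : 2 / α * |(u : ℝ)| ≤ |(m : ℝ)| := by nlinarith [abs_nonneg (u : ℝ)]
      have h4 : α / 2 * (2 / α * |(u : ℝ)|) ≤ α / 2 * |(m : ℝ)| :=
        mul_le_mul_of_nonneg_left h3 (by positivity)
      have h5 : α / 2 * (2 / α * |(u : ℝ)|) = |(u : ℝ)| := by field_simp
      rw [h5] at h4
      linarith
    have hlow : ∀ x ∈ Icc (-1 : ℝ) 1,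
        α * |(m : ℝ)| / 2 ≤ |deriv (fun x : ℝ => (u : ℝ) * x + (m : ℝ) * φ x) x| := by
      intro x hx
      rw [deriv_theta_H86 φ hdiff]
      have h3 : |(m : ℝ) * deriv φ x| - |(u : ℝ)| ≤ |(u : ℝ) + (m : ℝ) * deriv φ x| := by
        have := abs_sub_abs_le_abs_sub ((m : ℝ) * deriv φ x) (-(u : ℝ))
        rw [abs_neg, sub_neg_eq_add, add_comm ((m : ℝ) * deriv φ x)] at this
        exact this
      have h4 : |(m : ℝ)| * α ≤ |(m : ℝ) * deriv φ x| := by
        rw [abs_mul]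
        exact mul_le_mul_of_nonneg_left (hαle x hx) (abs_nonneg _)
      simp only
      linarith
    have hupp : ∀ x ∈ Icc (-1 : ℝ) 1,
        |deriv (deriv (fun x : ℝ => (u : ℝ) * x + (m : ℝ) * φ x)) x| ≤ |(m : ℝ)| * M := by
      intro x hx
      rw [deriv2_theta_H86 φ hdiff]
      simp only
      rw [abs_mul]
      exact mul_le_mul_of_nonneg_left (hMle x hx) (abs_nonneg _)
    have hfd := hF (fun x : ℝ => (u : ℝ) * x + (m : ℝ) * φ x) (-1) 1 (α * |(m : ℝ)| / 2)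
      (|(m : ℝ)| * M) (by norm_num) (hθ2 u m) (by positivity) (by positivity) hlow hupp
    unfold ker
    refine hfd.trans ?_
    calc 1 / (α * |(m : ℝ)| / 2) + (1 - -1) * (|(m : ℝ)| * M) / (α * |(m : ℝ)| / 2) ^ 2
        = (2 / α + 8 * M / α ^ 2) / |(m : ℝ)| := by
          field_simp
          ring
      _ ≤ _ := by
          apply div_le_div_of_nonneg_right _ hm0.le
          linarith

end Pool.Agent.H79.QN
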