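import Pool.Agent.H79.QN.Stmts2

/-!
# Row VDK of board `qn`: van der Corput's lemma of order `k`
-/

set_option autoImplicit false

namespace Pool.Agent.H79.QN

open Set

theorem norm_e_H86 (t : ℝ) : ‖e t‖ = 1 := by
  have h : (2 * Real.pi * t * Complex.I : ℂ) = ((2 * Real.pi * t : ℝ) : ℂ) * Complex.I := by
    push_cast
    ring
  rw [e, h, Complex.norm_exp_ofReal_mul_I]

theorem cont_e_H86 {θ : ℝ → ℝ} (h : Continuous θ) : Continuous (fun x => e (θ x)) := by
  unfold e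
  fun_prop

theorem norm_int_e_H86 (θ : ℝ → ℝ) {a b : ℝ} (hab : a ≤ b) : ‖∫ x in a..b, e (θ x)‖ ≤ b - a := by
  have h := intervalIntegral.norm_integral_le_of_norm_le_const (a := a) (b := b)
    (f := fun x => e (θ x)) (C := 1) (fun x _ => (norm_e_H86 (θ x)).le)
  rw [one_mul, abs_of_nonneg (by linarith)] at h
  exact h

/-- positive derivative -/
theorem zero_loc_pos_H86 (g g' : ℝ → ℝ) (a b μ : ℝ) (hab : a ≤ b) (hμ : 0 < μ)
    (hd : ∀ x, HasDerivAt g (g' x) x) (h : ∀ x ∈ Icc a b, μ ≤ g' x) :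
    ∃ x₀ ∈ Icc a b, ∀ x ∈ Icc a b, μ * |x - x₀| ≤ |g x| := by
  have hcg : Continuous g := continuous_iff_continuousAt.mpr fun x => (hd x).continuousAt
  have hmono : ∀ x ∈ Icc a b, ∀ y ∈ Icc a b, x ≤ y → μ * (y - x) ≤ g y - g x := by
    intro x hx y hy hxy
    apply Convex.mul_sub_le_image_sub_of_le_deriv (convex_Icc a b) hcg.continuousOn
      (fun z _ => (hd z).differentiableAt.differentiableWithinAt) _ x hx y hy hxy
    intro z hz
    rw [(hd z).deriv]
    exact h z (interior_subset hz)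
  have ha : a ∈ Icc a b := left_mem_Icc.mpr hab
  have hb : b ∈ Icc a b := right_mem_Icc.mpr hab
  by_cases h1 : 0 ≤ g a
  · refine ⟨a, ha, fun x hx => ?_⟩
    have := hmono a ha x hx hx.1
    rw [abs_of_nonneg (by linarith [hx.1])]
    exact le_trans (by linarith) (le_abs_self _)
  · by_cases h2 : g b ≤ 0
    · refine ⟨b, hb, fun x hx => ?_⟩
      have := hmono x hx b hb hx.2
      rw [abs_sub_comm, abs_of_nonneg (by linarith [hx.2])]
      exact le_trans (by linarith) (neg_le_abs _)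
    · push Not at h1 h2
      obtain ⟨x₀, hx₀, hg⟩ := intermediate_value_Icc hab hcg.continuousOn
        (show (0 : ℝ) ∈ Icc (g a) (g b) from ⟨h1.le, h2.le⟩)
      refine ⟨x₀, hx₀, fun x hx => ?_⟩
      rcases le_total x x₀ with h3 | h3
      · have := hmono x hx x₀ hx₀ h3
        rw [abs_sub_comm, abs_of_nonneg (by linarith)]
        exact le_trans (by linarith) (neg_le_abs _)
      · have := hmono x₀ hx₀ x hx h3
        rw [abs_of_nonneg (by linarith)]
        exact le_trans (by linarith) (le_abs_self _)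

/-- a function with derivative at least `μ` in absolute value is large far from one point -/
theorem zero_loc_H86 (g g' : ℝ → ℝ) (a b μ : ℝ) (hab : a ≤ b) (hμ : 0 < μ)
    (hd : ∀ x, HasDerivAt g (g' x) x) (hc : Continuous g') (h : ∀ x ∈ Icc a b, μ ≤ |g' x|) :
    ∃ x₀ ∈ Icc a b, ∀ x ∈ Icc a b, μ * |x - x₀| ≤ |g x| := by
  have ha : a ∈ Icc a b := left_mem_Icc.mpr hab
  have hne : ∀ x ∈ Icc a b, g' x ≠ 0 := by
    intro x hx h0
    have := h x hx
    rw [h0, abs_zero] at this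
    linarith
  rcases lt_or_gt_of_ne (hne a ha) with hneg | hpos
  · -- negative
    have hall : ∀ x ∈ Icc a b, g' x < 0 := by
      intro x hx
      by_contra hcon
      push Not at hcon
      obtain ⟨y, hy, hy0⟩ := intermediate_value_Icc hx.1 hc.continuousOn
        (show (0 : ℝ) ∈ Icc (g' a) (g' x) from ⟨hneg.le, hcon⟩)
      exact hne y ⟨hy.1, hy.2.trans hx.2⟩ hy0
    obtain ⟨x₀, hx₀, hh⟩ := zero_loc_pos_H86 (fun x => -g x) (fun x => -g' x) a b μ hab hμ
      (fun x => (hd x).neg) (fun x hx => by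
        have := h x hx
        rwa [abs_of_neg (hall x hx)] at this)
    refine ⟨x₀, hx₀, fun x hx => ?_⟩
    have := hh x hx
    rwa [abs_neg] at this
  · have hall : ∀ x ∈ Icc a b, 0 < g' x := by
      intro x hx
      by_contra hcon
      push Not at hcon
      obtain ⟨y, hy, hy0⟩ := intermediate_value_Icc' hx.1 hc.continuousOn
        (show (0 : ℝ) ∈ Icc (g' x) (g' a) from ⟨hcon, hpos.le⟩)
      exact hne y ⟨hy.1, hy.2.trans hx.2⟩ hy0
    exact zero_loc_pos_H86 g g' a b μ hab hμ hd (fun x hx => by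
      have := h x hx
      rwa [abs_of_pos (hall x hx)] at this)

theorem vdk_step_H86 (k : ℕ) (hk : 2 ≤ k) (C : ℝ) (hC : 0 < C)
    (ih : ∀ (θ : ℝ → ℝ) (a b μ : ℝ), a ≤ b → ContDiff ℝ k θ →
      0 < μ → (∀ x ∈ Set.Icc a b, μ ≤ |iteratedDeriv k θ x|) →
      ‖∫ x in a..b, e (θ x)‖ ≤ C * μ ^ (-(1 / k : ℝ)))
    (θ : ℝ → ℝ) (a b μ : ℝ) (hab : a ≤ b) (hθ : ContDiff ℝ ((k + 1 : ℕ)) θ)
    (hμ : 0 < μ) (h : ∀ x ∈ Set.Icc a b, μ ≤ |iteratedDeriv (k + 1) θ x|) :
    ‖∫ x in a..b, e (θ x)‖ ≤ (2 * C + 2) * μ ^ (-(1 / ((k + 1 : ℕ)) : ℝ)) := by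
  have hθk : ContDiff ℝ k θ := hθ.of_le (by exact_mod_cast Nat.le_succ k)
  have hd : ∀ x, HasDerivAt (iteratedDeriv k θ) (iteratedDeriv (k + 1) θ x) x := by
    intro x
    rw [iteratedDeriv_succ]
    apply DifferentiableAt.hasDerivAt
    exact (hθ.differentiable_iteratedDeriv k (by exact_mod_cast Nat.lt_succ_self k)) x
  have hc : Continuous (iteratedDeriv (k + 1) θ) :=
    hθ.continuous_iteratedDeriv (k + 1) le_rfl
  obtain ⟨x₀, hx₀, hloc⟩ := zero_loc_H86 _ _ a b μ hab hμ hd hc h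
  obtain ⟨δ, hδ⟩ : ∃ δ : ℝ, δ = μ ^ (-(1 / ((k + 1 : ℕ)) : ℝ)) := ⟨_, rfl⟩
  have hδ0 : 0 < δ := by rw [hδ]; exact Real.rpow_pos_of_pos hμ _
  have hkR : (0 : ℝ) < (k : ℝ) := by
    have : (2 : ℝ) ≤ (k : ℝ) := by exact_mod_cast hk
    linarith
  have hpow : (μ * δ) ^ (-(1 / k : ℝ)) = δ := by
    have h1 : μ * δ = μ ^ ((k : ℝ) / ((k + 1 : ℕ) : ℝ)) := by
      rw [hδ]
      nth_rewrite 1 [← Real.rpow_one μ]
      rw [← Real.rpow_add hμ]
      congr 1
      push_cast
      field_simp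
      ring
    rw [h1, hδ, ← Real.rpow_mul hμ.le]
    congr 1
    push_cast
    field_simp
  rw [← hδ]
  have hcont : Continuous (fun x => e (θ x)) := cont_e_H86 hθk.continuous
  have hii : ∀ s t : ℝ, IntervalIntegrable (fun x => e (θ x)) MeasureTheory.volume s t :=
    fun s t => hcont.intervalIntegrable s t
  obtain ⟨x₁, hx₁⟩ : ∃ x₁ : ℝ, x₁ = max a (x₀ - δ) := ⟨_, rfl⟩
  obtain ⟨x₂, hx₂⟩ : ∃ x₂ : ℝ, x₂ = min b (x₀ + δ) := ⟨_, rfl⟩
  have h1a : a ≤ x₁ := by rw [hx₁]; exact le_max_left _ _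
  have h10 : x₁ ≤ x₀ := by rw [hx₁]; exact max_le hx₀.1 (by linarith)
  have h02 : x₀ ≤ x₂ := by rw [hx₂]; exact le_min hx₀.2 (by linarith)
  have h2b : x₂ ≤ b := by rw [hx₂]; exact min_le_left _ _
  have h1δ : x₀ - δ ≤ x₁ := by rw [hx₁]; exact le_max_right _ _
  have h2δ : x₂ ≤ x₀ + δ := by rw [hx₂]; exact min_le_right _ _
  have hsplit : ∫ x in a..b, e (θ x) = (∫ x in a..x₁, e (θ x)) + (∫ x in x₁..x₂, e (θ x)) +
      ∫ x in x₂..b, e (θ x) := by
    rw [intervalIntegral.integral_add_adjacent_intervals (hii _ _) (hii _ _),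
      intervalIntegral.integral_add_adjacent_intervals (hii _ _) (hii _ _)]
  have hμδ : 0 < μ * δ := mul_pos hμ hδ0
  have hleft : ‖∫ x in a..x₁, e (θ x)‖ ≤ C * δ := by
    rcases le_total (x₀ - δ) a with hcase | hcase
    · have : x₁ = a := by rw [hx₁]; exact max_eq_left hcase
      rw [this, intervalIntegral.integral_same, norm_zero]
      positivity
    · have hx₁' : x₁ = x₀ - δ := by rw [hx₁]; exact max_eq_right hcase
      have := ih θ a x₁ (μ * δ) h1a hθk hμδ (by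
        intro x hx
        have h3 := hloc x ⟨hx.1, hx.2.trans (h10.trans hx₀.2)⟩
        refine le_trans ?_ h3
        apply mul_le_mul_of_nonneg_left _ hμ.le
        rw [abs_sub_comm, abs_of_nonneg (by linarith [hx.2])]
        linarith [hx.2])
      rwa [hpow] at this
  have hright : ‖∫ x in x₂..b, e (θ x)‖ ≤ C * δ := by
    rcases le_total b (x₀ + δ) with hcase | hcase
    · have : x₂ = b := by rw [hx₂]; exact min_eq_left hcase
      rw [this, intervalIntegral.integral_same, norm_zero]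
      positivity
    · have hx₂' : x₂ = x₀ + δ := by rw [hx₂]; exact min_eq_right hcase
      have := ih θ x₂ b (μ * δ) h2b hθk hμδ (by
        intro x hx
        have h3 := hloc x ⟨hx₀.1.trans (h02.trans hx.1), hx.2⟩
        refine le_trans ?_ h3
        apply mul_le_mul_of_nonneg_left _ hμ.le
        rw [abs_of_nonneg (by linarith [hx.1])]
        linarith [hx.1])
      rwa [hpow] at this
  have hmid : ‖∫ x in x₁..x₂, e (θ x)‖ ≤ 2 * δ := by
    refine (norm_int_e_H86 θ (h10.trans h02)).trans ?_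
    linarith
  rw [hsplit]
  calc ‖(∫ x in a..x₁, e (θ x)) + (∫ x in x₁..x₂, e (θ x)) + ∫ x in x₂..b, e (θ x)‖
      ≤ ‖(∫ x in a..x₁, e (θ x))‖ + ‖(∫ x in x₁..x₂, e (θ x))‖ + ‖∫ x in x₂..b, e (θ x)‖ :=
        norm_add₃_le
    _ ≤ C * δ + 2 * δ + C * δ := by linarith
    _ = (2 * C + 2) * δ := by ring

theorem vdk (h1 : S_SDT) : S_VDK := by
  intro k hk
  induction k, hk using Nat.le_induction with
  | base =>
    refine ⟨8, by norm_num, ?_⟩
    intro θ a b μ hab hθ hμ h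
    have h2 := h1 θ a b μ hab (by exact_mod_cast hθ) hμ (by
      intro x hx
      have := h x hx
      rw [iteratedDeriv_succ, iteratedDeriv_one] at this
      exact this)
    refine h2.trans (le_of_eq ?_)
    rw [Real.sqrt_eq_rpow, Real.rpow_neg hμ.le, div_eq_mul_inv]
    norm_num
  | succ k hk ih =>
    obtain ⟨C, hC, ih⟩ := ih
    refine ⟨2 * C + 2, by positivity, ?_⟩
    intro θ a b μ hab hθ hμ h
    exact vdk_step_H86 k hk C hC ih θ a b μ hab hθ hμ h

end Pool.Agent.H79.QN
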